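import Pool.Agent.Helper35.HC.StB

/-! # HC PBR: barrier at a value of `PSN` -/

set_option autoImplicit false

namespace Helper53.HC

open Helper35.HC Helper35.HSF Helper35.MS Helper35.PI Helper35.PI2 Helper32.CL
open scoped ContDiff Manifold Topology ENNReal BigOperators
open MeasureTheory Set Filter

theorem inner_sum_single {n N : ℕ} (L : EE n →ₗᵢ[ℝ] EE N) (U V : Fin n → ℝ) :
    (inner ℝ (∑ i, U i • L (ee i)) (∑ i, V i • L (ee i)) : ℝ) = ∑ i, U i * V i := by
  have h1 : ∀ U : Fin n → ℝ, (∑ i, U i • L (ee i)) = L (∑ i, U i • ee i) := by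
    intro U
    rw [map_sum]
    simp
  rw [h1, h1, L.inner_map_map]
  have h2 : ∀ (U : Fin n → ℝ) (j : Fin n), (∑ i, U i • (ee i : EE n)) j = U j := by
    intro U j
    simp [ee, Finset.sum_apply, Pi.single_apply]
  rw [PiLp.inner_apply]
  refine Finset.sum_congr rfl fun j _ => ?_
  rw [h2, h2]
  simp [mul_comm]

section

variable {n N : ℕ} {M : Type} [TopologicalSpace M] [ChartedSpace (EE n) M]

theorem mem_psn {F : M → ℝ → EE N} {p : M} {t : ℝ} {L : EE n →ₗᵢ[ℝ] EE N} {P Q : Fin n → ℝ}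
    (hOP : OP P Q) {c d : Fin n → ℝ} (hc : tv F p t c = ∑ i, P i • L (ee i))
    (hd : tv F p t d = ∑ i, Q i • L (ee i)) : ‖Ab F p t c d‖ ^ 2 ∈ PSN n F p t := by
  refine ⟨c, d, ?_, ?_, ?_, rfl⟩
  · rw [gb, hc, inner_sum_single]
    rw [← hOP.1]
    exact Finset.sum_congr rfl fun i _ => by ring
  · rw [gb, hd, inner_sum_single]
    rw [← hOP.2.1]
    exact Finset.sum_congr rfl fun i _ => by ring
  · rw [gb, hc, hd, inner_sum_single]
    exact hOP.2.2

theorem tv_inj {J : Set ℝ} {F : M → ℝ → EE N} (hF : IsImmJ (n := n) J F) {p : M} {t : ℝ}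
    (ht : t ∈ J) {c d : Fin n → ℝ} (h : tv F p t c = tv F p t d) : c = d := by
  have h1 := hF.imm p t ht
  have h2 : ∑ i, (c i - d i) • dv1 (loc (n := n) F p t) (chartAt (EE n) p p) i = 0 := by
    simp only [sub_smul, Finset.sum_sub_distrib]
    simp only [tv] at h
    rw [h, sub_self]
  rw [Fintype.linearIndependent_iff] at h1
  have h3 := h1 (fun i => c i - d i) h2
  funext i
  linarith [h3 i]

/-- the value of the barrier belongs to `PSN` -/
theorem beta_mem {F : M → ℝ → EE N} {q : M} {t : ℝ} {P Q : Fin n → ℝ} (hOP : OP P Q)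
    (f : Fin n → EE N) (S : Fin n → Fin n → EE N) (hli : LinearIndependent ℝ f)
    (h : ∀ U V : Fin n → ℝ, ∃ c d : Fin n → ℝ, tv F q t c = ∑ i, U i • f i ∧
      tv F q t d = ∑ i, V i • f i ∧ Ab F q t c d = ∑ i, ∑ j, (U i * V j) • S i j)
    (g : (Fin n → ℝ) → (Fin n → ℝ) → ℝ)
    (hg : ∀ c d, g c d = inner ℝ (∑ i, c i • f i) (∑ i, d i • f i)) :
    ‖bilV S P Q - (g P Q / g P P) • bilV S P P‖ ^ 2 / (g P P * g Q Q - g P Q ^ 2)
      ∈ PSN n F q t := by
  obtain ⟨o1, o2, o3⟩ := hOP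
  set p : EE N := ∑ i, P i • f i with hp
  set w0 : EE N := ∑ i, Q i • f i with hw0
  set a : ℝ := g P P with ha
  set b : ℝ := g P Q with hb
  have hap : a = ‖p‖ ^ 2 := by rw [ha, hg, real_inner_self_eq_norm_sq]
  have hbp : b = inner ℝ p w0 := by rw [hb, hg]
  have hcp : g Q Q = ‖w0‖ ^ 2 := by rw [hg, real_inner_self_eq_norm_sq]
  rw [Fintype.linearIndependent_iff] at hli
  have hp0 : p ≠ 0 := by
    intro h0
    have h1 := hli P h0
    have : ∑ i, P i ^ 2 = 0 := Finset.sum_eq_zero fun i _ => by rw [h1 i]; ring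
    linarith
  have ha0 : 0 < a := by rw [hap]; positivity
  set w : EE N := w0 - (b / a) • p with hw
  have hwe : w = ∑ i, (Q i - (b / a) * P i) • f i := by
    rw [hw, hw0, hp, Finset.smul_sum, ← Finset.sum_sub_distrib]
    refine Finset.sum_congr rfl fun i _ => ?_
    rw [sub_smul, mul_smul]
  have hw0' : w ≠ 0 := by
    intro h0
    rw [hwe] at h0
    have h1 := hli _ h0
    have h2 : ∑ i, (Q i - (b / a) * P i) * Q i = 0 :=
      Finset.sum_eq_zero fun i _ => by rw [h1 i]; ring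
    have h3 : ∑ i, (Q i - (b / a) * P i) * Q i = ∑ i, Q i ^ 2 - (b / a) * ∑ i, P i * Q i := by
      rw [Finset.mul_sum, ← Finset.sum_sub_distrib]
      exact Finset.sum_congr rfl fun i _ => by ring
    rw [h3, o2, o3] at h2
    linarith
  have hpw : (inner ℝ p w : ℝ) = 0 := by
    rw [hw, inner_sub_right, inner_smul_right, real_inner_self_eq_norm_sq, ← hap, ← hbp]
    field_simp
    ring
  set s : ℝ := ‖w‖ ^ 2 with hs
  have hs0 : 0 < s := by rw [hs]; positivity
  have hw0n : ‖w0‖ ^ 2 = s + b ^ 2 / a := by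
    have h1 : w0 = w + (b / a) • p := by rw [hw]; abel
    rw [h1, norm_add_sq_real, inner_smul_right, real_inner_comm, hpw, norm_smul, mul_pow, ← hap,
      Real.norm_eq_abs, sq_abs, ← hs]
    field_simp
    ring
  have hdisc : a * g Q Q - b ^ 2 = a * s := by
    rw [hcp, hw0n]
    field_simp
    ring
  have hsa : (√a) ^ 2 = a := Real.sq_sqrt ha0.le
  have hss : (√s) ^ 2 = s := Real.sq_sqrt hs0.le
  have hsa0 : 0 < √a := Real.sqrt_pos.2 ha0
  have hss0 : 0 < √s := Real.sqrt_pos.2 hs0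
  obtain ⟨c, d, hc, hd, hA⟩ := h (fun i => (√a)⁻¹ * P i) (fun i => (√s)⁻¹ * (Q i - (b / a) * P i))
  have hc' : tv F q t c = (√a)⁻¹ • p := by
    rw [hc, hp, Finset.smul_sum]
    exact Finset.sum_congr rfl fun i _ => by rw [mul_smul]
  have hd' : tv F q t d = (√s)⁻¹ • w := by
    rw [hd, hwe, Finset.smul_sum]
    exact Finset.sum_congr rfl fun i _ => by rw [mul_smul]
  refine ⟨c, d, ?_, ?_, ?_, ?_⟩
  · rw [gb, hc', real_inner_self_eq_norm_sq, norm_smul, mul_pow, ← hap, Real.norm_eq_abs, sq_abs,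
      inv_pow, hsa, inv_mul_cancel₀ ha0.ne']
  · rw [gb, hd', real_inner_self_eq_norm_sq, norm_smul, mul_pow, ← hs, Real.norm_eq_abs, sq_abs,
      inv_pow, hss, inv_mul_cancel₀ hs0.ne']
  · rw [gb, hc', hd', inner_smul_left, inner_smul_right, hpw]
    simp
  · have hE : Ab F q t c d = ((√a)⁻¹ * (√s)⁻¹) • (bilV S P Q - (b / a) • bilV S P P) := by
      rw [hA]
      simp only [bilV]
      rw [Finset.smul_sum, ← Finset.sum_sub_distrib, Finset.smul_sum]
      refine Finset.sum_congr rfl fun i _ => ?_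
      rw [Finset.smul_sum, ← Finset.sum_sub_distrib, Finset.smul_sum]
      refine Finset.sum_congr rfl fun j _ => ?_
      rw [smul_sub, smul_smul, smul_smul, smul_smul, ← sub_smul]
      congr 1
      ring
    rw [hE, norm_smul, mul_pow, Real.norm_eq_abs, sq_abs, mul_pow, inv_pow, inv_pow, hsa, hss, hdisc]
    field_simp

end

/-- Proof of `StPBR`. -/
theorem hPBR (hGCP : StGCP) (hGSJ : StGSJ) (_hG1 : StG1) (hG2 : StG2) : StPBR := by
  intro n N M _ _ _ J F hF p₀ t₀ ht L u θ hch A T hA hT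
  obtain ⟨g1, g2, g3⟩ := hGCP n N M J F hF p₀ t₀ ht L u θ hch
  refine ⟨?_, ?_, ?_⟩
  · rintro z₀ ⟨c, d, hcc, hdd, hcd, hz⟩
    obtain ⟨P, Q, hP, hQ, hAb⟩ := g2 c d
    have hOP : OP P Q := by
      refine ⟨?_, ?_, ?_⟩
      · rw [gb, hP, inner_sum_single] at hcc
        rw [← hcc]
        exact Finset.sum_congr rfl fun i _ => by ring
      · rw [gb, hQ, inner_sum_single] at hdd
        rw [← hdd]
        exact Finset.sum_congr rfl fun i _ => by ring
      · rw [gb, hP, hQ, inner_sum_single] at hcd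
        exact hcd
    obtain ⟨k1, k2, k3⟩ := hGSJ n N (F p₀ t₀) L u t₀ hch.sol A T hA hT P Q hOP _ _ rfl rfl
    have hz' : z₀ = ‖bilV A P Q‖ ^ 2 := by rw [hz, hAb, hA]
    refine ⟨P, Q, _, hOP, hz', k1, by rw [k2, hz'], ?_, k3⟩
    filter_upwards [g1, hG2 n N (F p₀ t₀) L u t₀ hch.sol] with z hz1 hz2
    exact beta_mem hOP (fun i => dv1 (grf (F p₀ t₀) L u z.2) z.1 i)
      (fun i j => sff (grf (F p₀ t₀) L u z.2) z.1 i j) hz2.2.2.2.2 hz1
      (fun c d => inner ℝ (∑ i, c i • dv1 (grf (F p₀ t₀) L u z.2) z.1 i)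
        (∑ i, d i • dv1 (grf (F p₀ t₀) L u z.2) z.1 i)) (fun _ _ => rfl)
  · intro P Q hOP
    obtain ⟨c, d, hc, hd, hAb⟩ := g3 P Q
    have := mem_psn (F := F) hOP hc hd
    rw [hAb, ← hA] at this
    exact this
  · intro c hc
    obtain ⟨c', d', h1, h2, h3⟩ := g3 c c
    have he : c' = d' := tv_inj hF ht (h1.trans h2.symm)
    refine ⟨c', ?_, ?_⟩
    · rw [gn, h1, ← real_inner_self_eq_norm_sq, inner_sum_single, ← hc]
      exact Finset.sum_congr rfl fun i _ => by ring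
    · rw [hA, ← h3, ← he]
      rfl

end Helper53.HC
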