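import Pool.Agent.Helper35.HC.StE

/-! # HC PIL: the projection to the sphere -/

set_option autoImplicit false

namespace Helper53.HC

open Helper35.HC Helper35.HSF Helper35.MS Helper35.PI Helper35.PI2 Helper32.CL
open scoped ContDiff Manifold Topology ENNReal BigOperators
open MeasureTheory Set Filter

section

variable {n N : ℕ} {M : Type} [TopologicalSpace M] [ChartedSpace (EE n) M]

/-- the derivative in the preferred chart -/
private theorem mf_eq' [IsManifold (𝓡 n) ∞ M] {K : ℕ} {g : M → EE K} {x : M}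
    (hd : MDifferentiableAt (𝓡 n) 𝓘(ℝ, EE K) g x) (v : EE n) :
    (mfderiv (𝓡 n) 𝓘(ℝ, EE K) g x v : EE K) = cd n g x v := by
  rw [hd.mfderiv]
  simp only [mfld_simps, fderivWithin_univ]
  rfl

/-- the immersion at a fixed time is smooth -/
private theorem slice_smooth [IsManifold (𝓡 n) ∞ M] {J : Set ℝ} {F : M → ℝ → EE N}
    (h : IsImmJ (n := n) J F) {t : ℝ} (ht : t ∈ J) :
    ContMDiff (𝓡 n) 𝓘(ℝ, EE N) ∞ (fun q => F q t) := by
  have h1 : ContMDiff (𝓡 n) ((𝓡 n).prod 𝓘(ℝ, ℝ)) ∞ (fun q : M => ((q, t) : M × ℝ)) :=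
    contMDiff_id.prodMk contMDiff_const
  intro q
  have h2 := h.smooth (q, t) ⟨mem_univ _, ht⟩
  have h3 : ContMDiffAt ((𝓡 n).prod 𝓘(ℝ, ℝ)) 𝓘(ℝ, EE N) ∞ (fun z : M × ℝ => F z.1 z.2) (q, t) :=
    h2.contMDiffAt ((isOpen_univ.prod h.op).mem_nhds ⟨mem_univ _, ht⟩)
  exact ContMDiffAt.comp (g := fun z : M × ℝ => F z.1 z.2) q h3 (h1 q)

end

/-- Proof of `StPIL`. -/
theorem hPIL (hPIE : StPIE) (hKLP : StKLP) (hCDG : StCDG) : StPIL := by
  intro n N hn M _ _ _ J F t l ε q₀ h L c₀ δ hδ hδ1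
  have hF : Fact (Module.finrank ℝ (EE (n + 1)) = n + 1) := ⟨finrank_euclideanSpace_fin⟩
  have hP := hPIE n N hn M J F t l ε q₀ h L c₀ δ hδ hδ1
  set x : M → EE (n + 1) := fun q => Pj L (F q t - c₀) with hx
  have hsF := slice_smooth h.fl.toIsImmJ h.tJ
  have hxs : ContMDiff (𝓡 n) 𝓘(ℝ, EE (n + 1)) ∞ x := by
    have h1 : ContDiff ℝ ∞ (fun w : EE N => Pj L (w - c₀)) :=
      (Pj L).contDiff.comp (contDiff_id.sub contDiff_const)
    exact h1.contMDiff.comp hsF
  set W : Set M := {q | x q ≠ 0} with hW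
  have hWo : IsOpen W := isOpen_ne_fun hxs.continuous continuous_const
  have hprj : ∀ q, prj L c₀ F t q = (1 / ‖x q‖) • x q := fun q => rfl
  have hsph : ∀ q ∈ W, prj L c₀ F t q ∈ Metric.sphere (0 : EE (n + 1)) 1 := by
    intro q hq
    rw [mem_sphere_zero_iff_norm, hprj, norm_smul, norm_div, norm_one, norm_norm,
      one_div_mul_cancel (norm_ne_zero_iff.2 hq)]
  have hs0 : (EuclideanSpace.single (0 : Fin (n + 1)) (1 : ℝ)) ∈
      Metric.sphere (0 : EE (n + 1)) 1 := by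
    rw [mem_sphere_zero_iff_norm]
    simp
  classical
  set π : M → Metric.sphere (0 : EE (n + 1)) 1 := fun q =>
    if hq : q ∈ W then ⟨prj L c₀ F t q, hsph q hq⟩ else ⟨_, hs0⟩ with hπ
  have hπW : ∀ q ∈ W, ((π q : EE (n + 1)) = prj L c₀ F t q) := by
    intro q hq
    rw [hπ]
    simp only [hq, dite_true]
  -- smoothness
  have hsm : ∀ q ∈ W, ContMDiffAt (𝓡 n) (𝓡 n) ∞ π q := by
    intro q hq
    let U : TopologicalSpace.Opens M := ⟨W, hWo⟩
    have h1 : ContMDiff (𝓡 n) 𝓘(ℝ, EE (n + 1)) ∞ (fun z : U => prj L c₀ F t z) := by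
      intro z
      have hz : x z ≠ 0 := z.2
      have h2 : ContDiffAt ℝ ∞ (fun w : EE (n + 1) => (1 / ‖w‖) • w) (x z) :=
        (contDiffAt_const.div (contDiffAt_norm ℝ hz) (norm_ne_zero_iff.2 hz)).smul contDiffAt_id
      have h3 : ContMDiffAt (𝓡 n) 𝓘(ℝ, EE (n + 1)) ∞ (fun z : U => x z) z :=
        (hxs.comp contMDiff_subtype_val) z
      exact ContMDiffAt.comp (g := fun w : EE (n + 1) => (1 / ‖w‖) • w) z h2.contMDiffAt h3
    have h4 := h1.codRestrict_sphere (n := n) (fun z => hsph z z.2)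
    have h5 : (fun z : U => π z) = Set.codRestrict (fun z : U => prj L c₀ F t z)
        (Metric.sphere (0 : EE (n + 1)) 1) (fun z => hsph z z.2) := by
      funext z
      apply Subtype.ext
      rw [hπW z z.2]
      rfl
    have h6 : ContMDiffAt (𝓡 n) (𝓡 n) ∞ (fun z : U => π z) ⟨q, hq⟩ := by
      rw [h5]
      exact h4 _
    exact contMDiffAt_subtype_iff.1 h6
  refine ⟨π, fun q hq => ?_⟩
  obtain ⟨-, -, p3, -, p5, p6⟩ := hP q hq
  have hqW : q ∈ W := by
    intro h0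
    have h1 : Pj L (F q t - c₀) = 0 := h0
    rw [h1, norm_zero, mul_zero, zero_sub, abs_neg, abs_one] at p3
    linarith
  have hinj : Function.Injective (mfderiv (𝓡 n) (𝓡 n) π q) := by
    rw [injective_iff_map_eq_zero]
    intro v hv
    change (v : EE n) = 0
    have h3 : MDifferentiableAt (𝓡 n) 𝓘(ℝ, EE (n + 1))
        (fun z : Metric.sphere (0 : EE (n + 1)) 1 => (z : EE (n + 1))) (π q) :=
      (contMDiff_coe_sphere (n := n) (m := ∞) (π q)).mdifferentiableAt (by simp)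
    have h4 : MDifferentiableAt (𝓡 n) (𝓡 n) π q := (hsm q hqW).mdifferentiableAt (by simp)
    have h5 : mfderiv (𝓡 n) 𝓘(ℝ, EE (n + 1)) ((fun z : Metric.sphere (0 : EE (n + 1)) 1 =>
        (z : EE (n + 1))) ∘ π) q v = 0 := by
      rw [mfderiv_comp_apply q h3 h4, hv, map_zero]
    have h6 : ((fun z : Metric.sphere (0 : EE (n + 1)) 1 => (z : EE (n + 1))) ∘ π)
        =ᶠ[𝓝 q] prj L c₀ F t := by
      filter_upwards [hWo.mem_nhds hqW] with z hz
      exact hπW z hz
    have h7 : MDifferentiableAt (𝓡 n) 𝓘(ℝ, EE (n + 1)) ((fun z : Metric.sphere (0 : EE (n + 1)) 1 =>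
        (z : EE (n + 1))) ∘ π) q := h3.comp q h4
    rw [mf_eq' h7 v] at h5
    have h9 : Tendsto (chartAt (EE n) q).symm (𝓝 (chartAt (EE n) q q)) (𝓝 q) := by
      have h8 := (chartAt (EE n) q).continuousAt_symm (mem_chart_target _ q)
      rw [ContinuousAt, (chartAt (EE n) q).left_inv (mem_chart_source _ q)] at h8
      exact h8
    have h10 : cd n (prj L c₀ F t) q v = 0 := by
      have h8 := Filter.EventuallyEq.fderiv_eq (𝕜 := ℝ) (h6.comp_tendsto h9)
      unfold cd at h5 ⊢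
      refine Eq.trans ?_ h5
      exact congrArg (fun A : EE n →L[ℝ] EE (n + 1) => A v) h8.symm
    have h11 := p6 v
    rw [h10, norm_zero] at h11
    have h12 : ‖cd n (fun p => F p t) q v‖ = 0 := by
      have := norm_nonneg (cd n (fun p => F p t) q v)
      have hl := h.l0
      by_contra hne
      have : 0 < ‖cd n (fun p => F p t) q v‖ := lt_of_le_of_ne this (Ne.symm hne)
      have : 0 < l / 2 * ‖cd n (fun p => F p t) q v‖ := by positivity
      linarith
    exact (hCDG n N M J F h.fl.toIsImmJ t h.tJ q).2.2.2.1 v (norm_eq_zero.1 h12)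
  obtain ⟨k1, k2⟩ := hKLP n M (Metric.sphere (0 : EE (n + 1)) 1) π W hWo
    (fun z hz => (hsm z hz).contMDiffWithinAt) q hqW hinj
  exact ⟨hπW q hqW, hsm q hqW, k1, k2⟩

end Helper53.HC
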